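import Pool.Agent.J4H24.TH.Pyr

/-!
# The numerical part
-/

namespace Pool.Agent.J4H24.TH

open Real

/-- The choice of `p`. -/
lemma exists_p {h : ℕ} (hh : 10 ^ 6 ≤ h) : ∃ p : ℕ, 1 ≤ p ∧ MM p ≤ h ∧
    (h : ℝ) ^ (1 / 3 : ℝ) ≤ 4 * p ∧ (p : ℝ) ≤ (h : ℝ) ^ (1 / 3 : ℝ) := by
  set y : ℝ := (h : ℝ) ^ (1 / 3 : ℝ) with hy
  have hh' : (10 : ℝ) ^ 6 ≤ h := by exact_mod_cast hh
  have hy3 : y ^ 3 = h := by
    rw [hy, ← Real.rpow_natCast, ← Real.rpow_mul (by positivity)]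
    norm_num
  have hy0 : 0 ≤ y := by rw [hy]; positivity
  have hy100 : 100 ≤ y := by
    by_contra hcon
    push Not at hcon
    have : y ^ 3 < 100 ^ 3 := pow_lt_pow_left₀ hcon hy0 (by norm_num)
    rw [hy3] at this
    norm_num at this hh'
    linarith
  set q := ⌊y / 2⌋₊ with hq
  have h1 : (q : ℝ) ≤ y / 2 := Nat.floor_le (by positivity)
  have h2 : y / 2 < q + 1 := Nat.lt_floor_add_one _
  have hq3 : 3 ≤ q := by
    have : (3 : ℝ) ≤ q := by linarith
    exact_mod_cast this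
  refine ⟨q - 1, by omega, ?_, ?_, ?_⟩
  · refine (MM_le _).trans ?_
    have e : q - 1 + 1 = q := by omega
    rw [e]
    have : (4 * q ^ 3 : ℝ) ≤ h := by
      have h3 : (q : ℝ) ^ 3 ≤ (y / 2) ^ 3 := pow_le_pow_left₀ (by positivity) h1 3
      have h4 : (y / 2) ^ 3 = h / 8 := by rw [div_pow, hy3]; norm_num
      have h5 : (0 : ℝ) ≤ h := by positivity
      linarith
    exact_mod_cast this
  · rw [Nat.cast_sub (by omega)]
    push_cast
    linarith
  · rw [Nat.cast_sub (by omega)]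
    push_cast
    linarith

/-- **The asymptotic form.** -/
lemma asym {h k S G T μ : ℕ} (hh : 10 ^ 12 ≤ h) (hk : h ^ 3 ≤ k)
    (hS : (S : ℝ) < (2 : ℝ) ^ ((1 / 40 : ℝ) * √((h : ℝ) ^ (1 / 3 : ℝ) * Real.log k)))
    (H : ∀ p m : ℕ, 1 ≤ p → MM p ≤ h → S ≤ 2 ^ m →
      G * k * k ^ p ≤ T * (μ * k ^ p + k ^ 2 *
        (((h + 1) ^ 2 * (m + 2)) ^ p * (2 ^ m * 2 ^ m) ^ (m + 2)))) :
    (G : ℝ) ≤ ((μ : ℝ) / k + (k : ℝ) ^ (-((h : ℝ) ^ (1 / 3 : ℝ) / 40))) * T := by
  obtain ⟨p, hp1, hpM, hp2, hp3⟩ := exists_p (h := h) (le_trans (by norm_num) hh)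
  set m := Nat.clog 2 S with hm
  have hSm : S ≤ 2 ^ m := Nat.le_pow_clog (by norm_num) S
  have key := H p m hp1 hpM hSm
  have hh' : (10 : ℝ) ^ 12 ≤ h := by exact_mod_cast hh
  have hh0 : (0 : ℝ) < h := lt_of_lt_of_le (by norm_num) hh'
  have hkh : (h : ℝ) ^ 3 ≤ k := by exact_mod_cast hk
  have hk0 : (0 : ℝ) < k := lt_of_lt_of_le (by positivity) hkh
  have hlogk : 3 * Real.log h ≤ Real.log k := by
    have := Real.log_le_log (by positivity) hkh
    rw [Real.log_pow] at this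
    exact_mod_cast this
  have hlogh1 : 1 ≤ Real.log h := by
    rw [Real.le_log_iff_exp_le hh0]
    have := Real.exp_one_lt_d9
    have h2 : (10 : ℝ) ^ 12 ≥ 2.7182818286 := by norm_num
    linarith
  have hlogk1 : 3 ≤ Real.log k := by linarith
  have hlog2 := Real.log_two_lt_d9
  have hlog2' := Real.log_two_gt_d9
  -- log (h+1)
  have hlogh : Real.log ((h : ℝ) + 1) ≤ 9 / 8 * Real.log h := by
    have h1 : Real.log ((h : ℝ) + 1) ≤ Real.log (2 * h) :=
      Real.log_le_log (by positivity) (by linarith [hh'])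
    rw [Real.log_mul (by norm_num) (by positivity)] at h1
    have h2 : Real.log 2 ≤ 1 / 8 * Real.log h := by
      have h3 : Real.log ((2 : ℝ) ^ 8) ≤ Real.log h :=
        Real.log_le_log (by positivity) (le_trans (by norm_num) hh')
      rw [Real.log_pow] at h3
      push_cast at h3
      linarith
    linarith
  have hp0 : (0 : ℝ) < p := by exact_mod_cast hp1
  set y : ℝ := (h : ℝ) ^ (1 / 3 : ℝ) with hy
  set l : ℝ := Real.log k with hl
  have hy4 : (10 : ℝ) ^ 4 ≤ y := by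
    have h2 : ((10 : ℝ) ^ 12) ^ (1 / 3 : ℝ) ≤ y :=
      Real.rpow_le_rpow (by positivity) hh' (by norm_num)
    refine le_trans (le_of_eq ?_) h2
    rw [← Real.rpow_natCast, ← Real.rpow_natCast, ← Real.rpow_mul (by norm_num)]
    norm_num
  have hyl0 : 0 ≤ y * l := mul_nonneg (by linarith) (by linarith)
  set X : ℝ := √(y * l) with hX
  have hX2 : X ^ 2 = y * l := Real.sq_sqrt hyl0
  have hX0 : 0 ≤ X := Real.sqrt_nonneg _
  have hXbig : 120 ≤ X := by
    have h2 : (120 : ℝ) ^ 2 ≤ X ^ 2 := by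
      rw [hX2]
      have h3 : (10 : ℝ) ^ 4 * 3 ≤ y * l := mul_le_mul hy4 hlogk1 (by norm_num) (by linarith)
      refine le_trans (by norm_num) h3
    exact (abs_le_of_sq_le_sq' h2 hX0).2
  -- m
  have hmX : (m : ℝ) + 2 ≤ X / 20 := by
    rcases Nat.lt_or_ge 1 S with h1 | h1
    · have h2 := Nat.pow_pred_clog_lt_self (b := 2) (by norm_num) h1
      rw [Nat.pred_eq_sub_one, ← hm] at h2
      have hm1 : 1 ≤ m := Nat.clog_pos (by norm_num) h1
      have h3 : ((2 : ℝ)) ^ ((m : ℝ) - 1) < (2 : ℝ) ^ ((1 / 40 : ℝ) * X) := by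
        refine lt_of_le_of_lt ?_ hS
        have h4 : ((2 : ℝ)) ^ (m - 1) ≤ S := by exact_mod_cast h2.le
        have h5 : (2 : ℝ) ^ ((m : ℝ) - 1) = (2 : ℝ) ^ (m - 1) := by
          rw [← Real.rpow_natCast, Nat.cast_sub hm1]
          norm_num
        rw [h5]; exact h4
      have h6 := (Real.rpow_lt_rpow_left_iff (by norm_num)).mp h3
      linarith
    · have : m = 0 := by rw [hm]; exact Nat.clog_of_right_le_one h1 2
      rw [this]
      push_cast
      linarith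
  have hm0 : (0 : ℝ) ≤ m := by positivity
  have hm2 : ((m : ℝ) + 2) ^ 2 ≤ y * l / 400 := by
    have h1 : ((m : ℝ) + 2) ^ 2 ≤ (X / 20) ^ 2 := pow_le_pow_left₀ (by positivity) hmX 2
    have h2 : (X / 20) ^ 2 = y * l / 400 := by rw [div_pow, hX2]; norm_num
    linarith
  -- log (m+2)
  have hlogm : Real.log ((m : ℝ) + 2) ≤ 5 / 72 * l := by
    have h5 : y ≤ (k : ℝ) ^ (1 / 9 : ℝ) := by
      have h6 : ((h : ℝ) ^ 3) ^ (1 / 9 : ℝ) ≤ (k : ℝ) ^ (1 / 9 : ℝ) :=
        Real.rpow_le_rpow (by positivity) hkh (by norm_num)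
      refine le_trans (le_of_eq ?_) h6
      rw [hy, ← Real.rpow_natCast, ← Real.rpow_mul hh0.le]
      norm_num
    have h7 : l ≤ 36 * (k : ℝ) ^ (1 / 36 : ℝ) := by
      have h8 := Real.log_le_sub_one_of_pos (x := (k : ℝ) ^ (1 / 36 : ℝ)) (by positivity)
      rw [Real.log_rpow hk0] at h8
      linarith
    have h9 : (k : ℝ) ^ (1 / 9 : ℝ) * (k : ℝ) ^ (1 / 36 : ℝ) = (k : ℝ) ^ (5 / 36 : ℝ) := by
      rw [← Real.rpow_add hk0]; norm_num
    have h10 : y * l ≤ (k : ℝ) ^ (1 / 9 : ℝ) * (36 * (k : ℝ) ^ (1 / 36 : ℝ)) :=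
      mul_le_mul h5 h7 (by linarith) (by positivity)
    have h11 : ((m : ℝ) + 2) ^ 2 ≤ (k : ℝ) ^ (5 / 36 : ℝ) := by
      have h12 : (0 : ℝ) < (k : ℝ) ^ (5 / 36 : ℝ) := by positivity
      have h13 : (k : ℝ) ^ (1 / 9 : ℝ) * (36 * (k : ℝ) ^ (1 / 36 : ℝ)) =
          36 * (k : ℝ) ^ (5 / 36 : ℝ) := by rw [← h9]; ring
      linarith
    have h14 := Real.log_le_log (by positivity) h11
    rw [Real.log_pow, Real.log_rpow hk0] at h14
    push_cast at h14
    linarith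
  -- the error term
  set D : ℝ := (((h : ℝ) + 1) ^ 2 * ((m : ℝ) + 2)) ^ p * ((2 : ℝ) ^ m * 2 ^ m) ^ (m + 2) with hD
  have hD0 : 0 < D := by positivity
  have hlogD : Real.log D = p * (2 * Real.log ((h : ℝ) + 1) + Real.log ((m : ℝ) + 2)) +
      (m + 2) * (2 * m * Real.log 2) := by
    rw [hD, Real.log_mul (by positivity) (by positivity), Real.log_pow, Real.log_pow,
      Real.log_mul (by positivity) (by positivity), Real.log_pow,
      Real.log_mul (by positivity) (by positivity), Real.log_pow]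
    push_cast
    ring
  have hA : (p : ℝ) * (2 * Real.log ((h : ℝ) + 1) + Real.log ((m : ℝ) + 2)) ≤
      p * ((3 / 4 + 5 / 72) * l) := by
    apply mul_le_mul_of_nonneg_left _ hp0.le
    linarith
  have hB : ((m : ℝ) + 2) * (2 * m * Real.log 2) ≤ 7 / 5 * (y * l / 400) := by
    have h1 : ((m : ℝ) + 2) * (2 * m * Real.log 2) = (2 * Real.log 2) * (((m : ℝ) + 2) * m) := by
      ring
    have h2 : ((m : ℝ) + 2) * m ≤ y * l / 400 := by nlinarith
    rw [h1]
    exact mul_le_mul (by linarith) h2 (by positivity) (by norm_num)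
  have hC : l + Real.log D - p * l ≤ -(y / 40) * l := by
    have h1 : y * l ≤ 4 * (p * l) := by
      have := mul_le_mul_of_nonneg_right hp2 (show (0 : ℝ) ≤ l by linarith)
      linarith
    have h2 : 10 ^ 4 * l ≤ y * l := mul_le_mul_of_nonneg_right hy4 (by linarith)
    have h3 : -(y / 40) * l = -(y * l) / 40 := by ring
    rw [h3, hlogD]
    linarith
  have hE : (k : ℝ) * D / (k : ℝ) ^ p ≤ (k : ℝ) ^ (-(y / 40)) := by
    have h1 : 0 < (k : ℝ) * D / (k : ℝ) ^ p := by positivity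
    rw [← Real.log_le_log_iff h1 (by positivity), Real.log_div (by positivity) (by positivity),
      Real.log_mul (by positivity) (by positivity), Real.log_pow, Real.log_rpow hk0]
    exact hC
  have keyR : (G : ℝ) * k * (k : ℝ) ^ p ≤ T * (μ * (k : ℝ) ^ p + (k : ℝ) ^ 2 * D) := by
    rw [hD]
    exact_mod_cast key
  have hF : (G : ℝ) ≤ T * (μ / k + (k : ℝ) * D / (k : ℝ) ^ p) := by
    have h1 : (0 : ℝ) < k * (k : ℝ) ^ p := by positivity
    have h2 : (T : ℝ) * (μ * (k : ℝ) ^ p + (k : ℝ) ^ 2 * D) =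
        (T * (μ / k + (k : ℝ) * D / (k : ℝ) ^ p)) * (k * (k : ℝ) ^ p) := by
      field_simp
    rw [h2, mul_assoc] at keyR
    exact le_of_mul_le_mul_right keyR h1
  calc (G : ℝ) ≤ T * (μ / k + (k : ℝ) * D / (k : ℝ) ^ p) := hF
    _ ≤ T * (μ / k + (k : ℝ) ^ (-(y / 40))) := by gcongr
    _ = _ := by ring

end Pool.Agent.J4H24.TH
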