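import Pool.Agent.J4H24.TH.Hyb

/-!
# From value vectors to uniformly distributed tables
-/

namespace Pool.Agent.J4H24.TH

variable {k : ℕ} {Q : Type}

/-- Families of tables. -/
abbrev TB (h k : ℕ) := Fin (h + 1) × Fin (h + 1) → Fin k → Fin k → Fin k

lemma tests_within {P : Prog k Q} {h : ℕ} (hW : Within h P) {f : Var k → Fin k} {L : EL k Q}
    (hL : L ∈ comps P f) {x : Var k} {c : Fin k} {q : Q} (hx : (some (x, c), q) ∈ L) :
    x.nod.1 + x.nod.2 ≤ h := by
  obtain ⟨q', hp, _⟩ := (path_iff L P.start).mp hL.1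
  obtain ⟨st, _, _, hs⟩ := exists_sts hp
  obtain ⟨y, hy⟩ := List.mem_iff_getElem?.mp hx
  exact mem_within hW hs hy

/-- The value vector of an input. -/
def vec (h : ℕ) (f : Var k → Fin k) : Fin (h + 1) × Fin (h + 1) → Fin k :=
  fun v => val f v.1.val v.2.val

lemma mem_bad {P : Prog k Q} {h : ℕ} (hW : Within h P) (hT : Thrifty P) {f : Var k → Fin k}
    {L : EL k Q} (hL : L ∈ comps P f) {y : ℕ} (hy : Prd L y (h, 0)) (a₀ : Fin k) :
    vec h f ∈ Bad P h a₀ := by
  classical
  refine Finset.mem_filter.mpr ⟨Finset.mem_univ _, L, ⟨hL.1, ?_⟩, y, hy⟩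
  intro x c q hx
  have h1 := tests_within hW hL hx
  have h2 := hL.2 x c q hx
  have h3 : ext h a₀ (vec h f) x.nod = val f x.nod.1 x.nod.2 := by
    unfold ext
    rw [dif_pos ⟨by omega, by omega⟩]
    rfl
  show ext h a₀ (vec h f) x.nod = c
  rw [h3, ← h2]
  cases x with
  | leaf j => rfl
  | node i j a b =>
    obtain ⟨ha, hb⟩ := hT f L hL i j a b c q hx
    show val f (i + 1) j = _
    rw [val, ← ha, ← hb]

variable [NeZero k]

/-- Shift of the tables. -/
def sh {h : ℕ} (x : Fin (h + 1) × Fin (h + 1) → Fin k) : TB h k ≃ TB h k :=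
  Equiv.addRight (fun v _ _ => x v)

lemma sh_apply {h : ℕ} (x : Fin (h + 1) × Fin (h + 1) → Fin k) (g : TB h k)
    (v : Fin (h + 1) × Fin (h + 1)) (a b : Fin k) : sh x g v a b = g v a b + x v := rfl

lemma val_out {h : ℕ} (g : TB h k) : ∀ i j, h + 1 ≤ j → val (inp g) i j = 0
  | 0, j => fun hj => by
      show (if hj : j < h + 1 then g (0, ⟨j, hj⟩) 0 0 else 0) = 0
      rw [dif_neg (by omega)]
  | i + 1, j => fun hj => by
      show (if hij : i + 1 < h + 1 ∧ j < h + 1 then _ else (0 : Fin k)) = 0
      rw [dif_neg (by omega)]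

lemma vec_inj {h : ℕ} (g : TB h k) :
    Function.Injective (fun x : Fin (h + 1) × Fin (h + 1) → Fin k => vec h (inp (sh x g))) := by
  intro x x' e
  have e' : ∀ i j, i < h + 1 → j < h + 1 → val (inp (sh x g)) i j = val (inp (sh x' g)) i j :=
    fun i j hi hj => congrFun e (⟨i, hi⟩, ⟨j, hj⟩)
  have e'' : ∀ i j, i < h + 1 → val (inp (sh x g)) i j = val (inp (sh x' g)) i j := by
    intro i j hi
    rcases Nat.lt_or_ge j (h + 1) with hj | hj
    · exact e' i j hi hj
    · rw [val_out _ i j hj, val_out _ i j hj]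
  funext v
  obtain ⟨⟨i, hi⟩, ⟨j, hj⟩⟩ := v
  have h1 := e' i j hi hj
  cases i with
  | zero =>
    have h2 : ∀ x : Fin (h + 1) × Fin (h + 1) → Fin k, val (inp (sh x g)) 0 j =
        g (⟨0, hi⟩, ⟨j, hj⟩) 0 0 + x (⟨0, hi⟩, ⟨j, hj⟩) := by
      intro x
      show (if hj : j < h + 1 then sh x g (0, ⟨j, hj⟩) 0 0 else 0) = _
      rw [dif_pos hj]
      rfl
    rw [h2, h2] at h1
    exact add_left_cancel h1
  | succ i =>
    have h2 : ∀ x : Fin (h + 1) × Fin (h + 1) → Fin k, val (inp (sh x g)) (i + 1) j =
        g (⟨i + 1, hi⟩, ⟨j, hj⟩) (val (inp (sh x g)) i j) (val (inp (sh x g)) i (j + 1)) +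
          x (⟨i + 1, hi⟩, ⟨j, hj⟩) := by
      intro x
      show (if hij : i + 1 < h + 1 ∧ j < h + 1 then sh x g (⟨i + 1, hij.1⟩, ⟨j, hij.2⟩) _ _
        else 0) = _
      rw [dif_pos ⟨hi, hj⟩]
      rfl
    rw [h2, h2, e'' i j (by omega), e'' i (j + 1) (by omega)] at h1
    exact add_left_cancel h1

open Classical in
/-- The value vector is uniformly distributed. -/
lemma vec_count {h : ℕ} (B : Finset (Fin (h + 1) × Fin (h + 1) → Fin k)) :
    ((Finset.univ : Finset (TB h k)).filter (fun g => vec h (inp g) ∈ B)).card *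
      k ^ ((h + 1) ^ 2) = Fintype.card (TB h k) * B.card := by
  let V := Fin (h + 1) × Fin (h + 1)
  have hV : Fintype.card (V → Fin k) = k ^ ((h + 1) ^ 2) := by
    simp only [V, Fintype.card_fun, Fintype.card_prod, Fintype.card_fin]
    ring
  have h1 : ∑ x : V → Fin k, ((Finset.univ : Finset (TB h k)).filter
      (fun g => vec h (inp (sh x g)) ∈ B)).card =
      ∑ g : TB h k, ((Finset.univ : Finset (V → Fin k)).filter
      (fun x => vec h (inp (sh x g)) ∈ B)).card := by
    simp only [Finset.card_filter]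
    exact Finset.sum_comm
  have h2 : ∀ x : V → Fin k, ((Finset.univ : Finset (TB h k)).filter
      (fun g => vec h (inp (sh x g)) ∈ B)).card =
      ((Finset.univ : Finset (TB h k)).filter (fun g => vec h (inp g) ∈ B)).card := by
    intro x
    apply Finset.card_bij (fun g _ => sh x g)
    · intro g hg
      exact Finset.mem_filter.mpr ⟨Finset.mem_univ _, (Finset.mem_filter.mp hg).2⟩
    · intro g _ g' _ e
      exact (sh x).injective e
    · intro g hg
      refine ⟨(sh x).symm g, Finset.mem_filter.mpr ⟨Finset.mem_univ _, ?_⟩, ?_⟩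
      · rw [Equiv.apply_symm_apply]; exact (Finset.mem_filter.mp hg).2
      · exact Equiv.apply_symm_apply _ _
  have h3 : ∀ g : TB h k, ((Finset.univ : Finset (V → Fin k)).filter
      (fun x => vec h (inp (sh x g)) ∈ B)).card = B.card := by
    intro g
    have hb : Function.Bijective (fun x : V → Fin k => vec h (inp (sh x g))) :=
      Finite.injective_iff_bijective.mp (vec_inj g)
    apply Finset.card_bij (fun x _ => vec h (inp (sh x g)))
    · intro x hx; exact (Finset.mem_filter.mp hx).2
    · intro x _ x' _ e; exact hb.1 e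
    · intro b hb'
      obtain ⟨x, hx⟩ := hb.2 b
      have hx' : vec h (inp (sh x g)) = b := hx
      exact ⟨x, Finset.mem_filter.mpr ⟨Finset.mem_univ _, by rw [hx']; exact hb'⟩, hx⟩
  simp only [h2, h3, Finset.sum_const, Finset.card_univ, smul_eq_mul, hV] at h1
  rw [mul_comm]; exact h1

/-- The root. -/
def rt (h : ℕ) : Fin (h + 1) × Fin (h + 1) := (Fin.last h, 0)

/-- Shift of the table of the root. -/
def rs {h : ℕ} (c : Fin k) : TB h k ≃ TB h k := sh (fun v => if v = rt h then c else 0)

lemma inp_rs {h : ℕ} (hh : h ≠ 0) (c : Fin k) (g : TB h k) (x : Var k) (hx : x.nod ≠ (h, 0)) :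
    inp (rs c g) x = inp g x := by
  cases x with
  | leaf j =>
    simp only [inp]
    split_ifs with hj
    · unfold rs
      rw [sh_apply, if_neg, add_zero]
      unfold rt
      intro e
      have := congrArg (fun v : Fin (h + 1) × Fin (h + 1) => v.1.val) e
      simp at this
      exact hh this.symm
    · rfl
  | node i j a b =>
    simp only [inp]
    split_ifs with hij
    · unfold rs
      rw [sh_apply, if_neg, add_zero]
      unfold rt
      intro e
      have e1 := congrArg (fun v : Fin (h + 1) × Fin (h + 1) => v.1.val) e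
      have e2 := congrArg (fun v : Fin (h + 1) × Fin (h + 1) => v.2.val) e
      simp only [Fin.val_last, Fin.val_zero] at e1 e2
      apply hx
      simp only [Var.nod, e1, e2]
    · rfl

omit [NeZero k] in
lemma val_congr {h : ℕ} {f f' : Var k → Fin k} (hf : ∀ x : Var k, x.nod ≠ (h, 0) → f x = f' x) :
    ∀ i j, i < h → val f i j = val f' i j
  | 0, j => fun hi => hf _ (by simp only [Var.nod, ne_eq, Prod.mk.injEq]; omega)
  | i + 1, j => fun hi => by
      rw [val, val, val_congr hf i j (by omega), val_congr hf i (j + 1) (by omega)]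
      exact hf _ (by simp only [Var.nod, ne_eq, Prod.mk.injEq]; omega)

lemma val_rs {h : ℕ} (hh : h ≠ 0) (c : Fin k) (g : TB h k) :
    val (inp (rs c g)) h 0 = val (inp g) h 0 + c := by
  obtain ⟨n, rfl⟩ := Nat.exists_eq_succ_of_ne_zero hh
  have h1 := val_congr (h := n + 1) (fun x hx => inp_rs hh c g x hx) n 0 (by omega)
  have h2 := val_congr (h := n + 1) (fun x hx => inp_rs hh c g x hx) n 1 (by omega)
  have h3 : ∀ g : TB (n + 1) k, val (inp g) (n + 1) 0 =
      g (rt (n + 1)) (val (inp g) n 0) (val (inp g) n 1) := by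
    intro g
    show (if hij : n + 1 < n + 1 + 1 ∧ 0 < n + 1 + 1 then
      g (⟨n + 1, hij.1⟩, ⟨0, hij.2⟩) _ _ else 0) = _
    rw [dif_pos ⟨by omega, by omega⟩]
    rfl
  show val (inp (rs c g)) (n + 1) 0 = val (inp g) (n + 1) 0 + c
  rw [h3, h3, h1, h2]
  unfold rs
  rw [sh_apply, if_pos rfl]

open Classical in
/-- The inputs on which the criterion `Φ` is right. -/
noncomputable def Good (P : Prog k Q) (h : ℕ) (A : Finset (Fin k)) (Φ : Set (EL k Q) → Prop) :
    Finset (TB h k) :=
  Finset.univ.filter (fun g => Φ (comps P (inp g)) ↔ val (inp g) h 0 ∈ A)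

open Classical in
/-- The inputs with a complete computation which tests the root. -/
noncomputable def BadG (P : Prog k Q) (h : ℕ) : Finset (TB h k) :=
  Finset.univ.filter (fun g => ∃ L, L ∈ comps P (inp g) ∧ ∃ y, Prd L y (h, 0))

lemma comps_rs {P : Prog k Q} {h : ℕ} (hh : h ≠ 0) {g : TB h k}
    (hg : ∀ c, rs c g ∉ BadG P h) (c c' : Fin k) :
    comps P (inp (rs c g)) ⊆ comps P (inp (rs c' g)) := by
  classical
  intro L hL
  refine ⟨hL.1, ?_⟩
  intro x d q hx
  have h1 := hL.2 x d q hx
  have h2 : x.nod ≠ (h, 0) := by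
    intro e
    obtain ⟨y, hy⟩ := List.mem_iff_getElem?.mp hx
    exact hg c (Finset.mem_filter.mpr ⟨Finset.mem_univ _, L, hL, y, x, d, q, hy, e⟩)
  rw [inp_rs hh c g x h2] at h1
  rw [inp_rs hh c' g x h2]
  exact h1

open Classical in
lemma good_card {P : Prog k Q} {h : ℕ} (hh : h ≠ 0) (A : Finset (Fin k))
    (Φ : Set (EL k Q) → Prop) :
    k * (Good P h A Φ).card ≤
      max A.card (k - A.card) * Fintype.card (TB h k) + k ^ 2 * (BadG P h).card := by
  have h1 : ∑ c : Fin k, ((Finset.univ : Finset (TB h k)).filter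
      (fun g => rs c g ∈ Good P h A Φ)).card = k * (Good P h A Φ).card := by
    have : ∀ c : Fin k, ((Finset.univ : Finset (TB h k)).filter
      (fun g => rs c g ∈ Good P h A Φ)).card = (Good P h A Φ).card := by
      intro c
      apply Finset.card_bij (fun g _ => rs c g)
      · intro g hg; exact (Finset.mem_filter.mp hg).2
      · intro g _ g' _ e; exact (rs c).injective e
      · intro g hg
        exact ⟨(rs c).symm g, Finset.mem_filter.mpr ⟨Finset.mem_univ _, by
          rw [Equiv.apply_symm_apply]; exact hg⟩, Equiv.apply_symm_apply _ _⟩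
    rw [Finset.sum_congr rfl (fun c _ => this c), Finset.sum_const, Finset.card_univ,
      Fintype.card_fin, smul_eq_mul]
  have h2 : ∑ c : Fin k, ((Finset.univ : Finset (TB h k)).filter
      (fun g => rs c g ∈ BadG P h)).card = k * (BadG P h).card := by
    have : ∀ c : Fin k, ((Finset.univ : Finset (TB h k)).filter
      (fun g => rs c g ∈ BadG P h)).card = (BadG P h).card := by
      intro c
      apply Finset.card_bij (fun g _ => rs c g)
      · intro g hg; exact (Finset.mem_filter.mp hg).2
      · intro g _ g' _ e; exact (rs c).injective e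
      · intro g hg
        exact ⟨(rs c).symm g, Finset.mem_filter.mpr ⟨Finset.mem_univ _, by
          rw [Equiv.apply_symm_apply]; exact hg⟩, Equiv.apply_symm_apply _ _⟩
    rw [Finset.sum_congr rfl (fun c _ => this c), Finset.sum_const, Finset.card_univ,
      Fintype.card_fin, smul_eq_mul]
  have h3 : ∀ g : TB h k, ((Finset.univ : Finset (Fin k)).filter
      (fun c => rs c g ∈ Good P h A Φ)).card ≤ max A.card (k - A.card) +
      k * ((Finset.univ : Finset (Fin k)).filter (fun c => rs c g ∈ BadG P h)).card := by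
    intro g
    by_cases hg : ∀ c, rs c g ∉ BadG P h
    · have hc : ∀ c, comps P (inp (rs c g)) = comps P (inp (rs 0 g)) := fun c =>
        Set.Subset.antisymm (comps_rs hh hg c 0) (comps_rs hh hg 0 c)
      have hk : ((Finset.univ : Finset (Fin k)).filter (fun c => val (inp g) h 0 + c ∈ A)).card =
          A.card := by
        apply Finset.card_bij (fun c _ => val (inp g) h 0 + c)
        · intro c hc'; exact (Finset.mem_filter.mp hc').2
        · intro c _ c' _ e; exact add_left_cancel e
        · intro a ha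
          refine ⟨a - val (inp g) h 0, Finset.mem_filter.mpr ⟨Finset.mem_univ _, ?_⟩, ?_⟩
          · rw [add_sub_cancel]; exact ha
          · exact add_sub_cancel _ _
      by_cases hΦ : Φ (comps P (inp (rs 0 g)))
      · have : (Finset.univ : Finset (Fin k)).filter (fun c => rs c g ∈ Good P h A Φ) ⊆
            (Finset.univ : Finset (Fin k)).filter (fun c => val (inp g) h 0 + c ∈ A) := by
          intro c hc'
          have h4 := (Finset.mem_filter.mp (Finset.mem_filter.mp hc').2).2
          rw [hc c, val_rs hh] at h4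
          exact Finset.mem_filter.mpr ⟨Finset.mem_univ _, h4.mp hΦ⟩
        have := Finset.card_le_card this
        rw [hk] at this
        exact this.trans ((le_max_left _ _).trans (Nat.le_add_right _ _))
      · have : (Finset.univ : Finset (Fin k)).filter (fun c => rs c g ∈ Good P h A Φ) ⊆
            (Finset.univ : Finset (Fin k)).filter (fun c => ¬ val (inp g) h 0 + c ∈ A) := by
          intro c hc'
          have h4 := (Finset.mem_filter.mp (Finset.mem_filter.mp hc').2).2
          rw [hc c, val_rs hh] at h4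
          exact Finset.mem_filter.mpr ⟨Finset.mem_univ _, fun h5 => hΦ (h4.mpr h5)⟩
        have h6 := Finset.card_le_card this
        have h7 := Finset.card_filter_add_card_filter_not (s := (Finset.univ : Finset (Fin k)))
          (fun c => val (inp g) h 0 + c ∈ A)
        rw [hk, Finset.card_univ, Fintype.card_fin] at h7
        have h8 : ((Finset.univ : Finset (Fin k)).filter
            (fun c => ¬ val (inp g) h 0 + c ∈ A)).card = k - A.card := by omega
        rw [h8] at h6
        exact h6.trans ((le_max_right _ _).trans (Nat.le_add_right _ _))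
    · push Not at hg
      obtain ⟨c, hc⟩ := hg
      have h4 : 1 ≤ ((Finset.univ : Finset (Fin k)).filter (fun c => rs c g ∈ BadG P h)).card :=
        Finset.card_pos.mpr ⟨c, Finset.mem_filter.mpr ⟨Finset.mem_univ _, hc⟩⟩
      have h5 : ((Finset.univ : Finset (Fin k)).filter
          (fun c => rs c g ∈ Good P h A Φ)).card ≤ k := by
        refine (Finset.card_le_univ _).trans ?_
        rw [Fintype.card_fin]
      have h6 : k * 1 ≤ k * ((Finset.univ : Finset (Fin k)).filter
          (fun c => rs c g ∈ BadG P h)).card := Nat.mul_le_mul_left _ h4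
      omega
  have h4 : ∑ c : Fin k, ((Finset.univ : Finset (TB h k)).filter
      (fun g => rs c g ∈ Good P h A Φ)).card = ∑ g : TB h k,
      ((Finset.univ : Finset (Fin k)).filter (fun c => rs c g ∈ Good P h A Φ)).card := by
    simp only [Finset.card_filter]
    exact Finset.sum_comm
  have h5 : ∑ c : Fin k, ((Finset.univ : Finset (TB h k)).filter
      (fun g => rs c g ∈ BadG P h)).card = ∑ g : TB h k,
      ((Finset.univ : Finset (Fin k)).filter (fun c => rs c g ∈ BadG P h)).card := by
    simp only [Finset.card_filter]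
    exact Finset.sum_comm
  rw [← h1, h4]
  refine (Finset.sum_le_sum (fun g _ => h3 g)).trans ?_
  rw [Finset.sum_add_distrib, Finset.sum_const, Finset.card_univ, smul_eq_mul, ← Finset.mul_sum,
    ← h5, h2]
  apply le_of_eq
  ring

open Classical in
/-- **The finite average-case form.** -/
theorem avg_fin [Fintype Q] {P : Prog k Q} {h p m : ℕ} (hp : 1 ≤ p) (hM : MM p ≤ h)
    (hk2 : 2 ≤ k) (hW : Within h P) (hT : Thrifty P) (hQ : Fintype.card Q ≤ 2 ^ m)
    (A : Finset (Fin k)) (Φ : Set (EL k Q) → Prop) :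
    (Good P h A Φ).card * k * k ^ p ≤ Fintype.card (TB h k) * (max A.card (k - A.card) * k ^ p +
      k ^ 2 * (((h + 1) ^ 2 * (m + 2)) ^ p * (2 ^ m * 2 ^ m) ^ (m + 2))) := by
  have hh : h ≠ 0 := by
    rintro rfl
    unfold MM at hM
    nlinarith
  have hexc : ∀ a : Fin k, ∃ c : Fin k, c ≠ a := by
    have : Nontrivial (Fin k) := Fin.nontrivial_iff_two_le.mpr hk2
    exact fun a => exists_ne a
  have h1 := good_card (P := P) hh A Φ
  have h2 := bad_card hp hM hexc 0 hW hT hQ
  have h3 := vec_count (Bad P h (0 : Fin k))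
  have h4 : (BadG P h).card ≤ ((Finset.univ : Finset (TB h k)).filter
      (fun g => vec h (inp g) ∈ Bad P h 0)).card := by
    apply Finset.card_le_card
    intro g hg
    obtain ⟨L, hL, y, hy⟩ := (Finset.mem_filter.mp hg).2
    exact Finset.mem_filter.mpr ⟨Finset.mem_univ _, mem_bad hW hT hL hy 0⟩
  set D := ((h + 1) ^ 2 * (m + 2)) ^ p * (2 ^ m * 2 ^ m) ^ (m + 2) with hD
  set N := k ^ ((h + 1) ^ 2) with hN
  have hN0 : 0 < N := by rw [hN]; positivity
  have h5 : (BadG P h).card * k ^ p ≤ Fintype.card (TB h k) * D := by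
    have h6 : N * ((BadG P h).card * k ^ p) ≤ N * (Fintype.card (TB h k) * D) := by
      calc N * ((BadG P h).card * k ^ p)
          = ((BadG P h).card * N) * k ^ p := by ring
        _ ≤ (((Finset.univ : Finset (TB h k)).filter
            (fun g => vec h (inp g) ∈ Bad P h 0)).card * N) * k ^ p := by gcongr
        _ = Fintype.card (TB h k) * ((Bad P h (0 : Fin k)).card * k ^ p) := by rw [h3]; ring
        _ ≤ Fintype.card (TB h k) * (N * D) := Nat.mul_le_mul_left _ h2
        _ = N * (Fintype.card (TB h k) * D) := by ring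
    exact Nat.le_of_mul_le_mul_left h6 hN0
  calc (Good P h A Φ).card * k * k ^ p = (k * (Good P h A Φ).card) * k ^ p := by ring
    _ ≤ (max A.card (k - A.card) * Fintype.card (TB h k) + k ^ 2 * (BadG P h).card) * k ^ p :=
        Nat.mul_le_mul_right _ h1
    _ = max A.card (k - A.card) * Fintype.card (TB h k) * k ^ p +
        k ^ 2 * ((BadG P h).card * k ^ p) := by ring
    _ ≤ max A.card (k - A.card) * Fintype.card (TB h k) * k ^ p +
        k ^ 2 * (Fintype.card (TB h k) * D) := by gcongr
    _ = _ := by ring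

end Pool.Agent.J4H24.TH
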