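import Mathlib

/-!
# Thrifty branching programs for pyramids

The pyramid of height `h` has the nodes `(i, j)` with `i + j ≤ h` (`i` the height, `j` the
position); the leaves are the `(0, j)`, the children of `(i+1, j)` are `(i, j)` and `(i, j+1)`,
the root (apex) is `(h, 0)`.
-/

namespace Pool.Agent.J4H24.TH

/-- The input variables, with values in `Fin k`: one for each leaf `(0, j)`, and the `k²` entries
(indexed by `a, b`) of a table for each node `(i+1, j)`. -/
inductive Var (k : ℕ) where
  | leaf (j : ℕ) : Var k
  | node (i j : ℕ) (a b : Fin k) : Var k

/-- The node to which a variable belongs. -/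
def Var.nod {k : ℕ} : Var k → ℕ × ℕ
  | Var.leaf j => (0, j)
  | Var.node i j _ _ => (i + 1, j)

/-- The value of node `(i, j)` on input `f`: for a leaf the value of its variable, for an inner
node the entry of its table at the values of its two children. -/
def val {k : ℕ} (f : Var k → Fin k) : ℕ → ℕ → Fin k
  | 0, j => f (Var.leaf j)
  | i + 1, j => f (Var.node i j (val f i j) (val f i (j + 1)))

/-- A (nondeterministic) branching program with state set `Q`: a start state, final states and
edges; an edge is free (`none`) or carries a test `some (x, c)` (variable `x` has value `c`).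
Any number of edges may leave a state, and cycles are allowed. -/
structure Prog (k : ℕ) (Q : Type) where
  start : Q
  fin : Q → Prop
  edge : Q → Option (Var k × Fin k) → Q → Prop

/-- `L` lists the edges (label, next state) of a path from the state `q` to a final state. -/
def Path {k : ℕ} {Q : Type} (P : Prog k Q) : Q → List (Option (Var k × Fin k) × Q) → Prop
  | q, [] => P.fin q
  | q, (e, q') :: L => P.edge q e q' ∧ Path P q' L

/-- The complete computations of `P` on the input `f`: the paths from the start state to a final
state all of whose tests are true on `f`. -/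
def comps {k : ℕ} {Q : Type} (P : Prog k Q) (f : Var k → Fin k) :
    Set (List (Option (Var k × Fin k) × Q)) :=
  {L | Path P P.start L ∧ ∀ x c q, (some (x, c), q) ∈ L → f x = c}

/-- `P` tests only variables of nodes of the pyramid of height `h`. -/
def Within {k : ℕ} {Q : Type} (h : ℕ) (P : Prog k Q) : Prop :=
  ∀ q x c q', P.edge q (some (x, c)) q' → x.nod.1 + x.nod.2 ≤ h

/-- `P` is thrifty: a complete computation on an input `f` tests the entry `(a, b)` of the table of
a node only when `a` and `b` are the values, on the input `f`, of the two children. -/
def Thrifty {k : ℕ} {Q : Type} (P : Prog k Q) : Prop :=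
  ∀ f, ∀ L ∈ comps P f, ∀ i j a b c q, (some (Var.node i j a b, c), q) ∈ L →
    a = val f i j ∧ b = val f i (j + 1)

/-- The finitely many inputs which are counted: a `k × k` table for each `(i, j)` with
`i, j ≤ h`; the value of the leaf `(0, j)` is the entry `(0, 0)` of its table. (For
the program and for the value of the root only the nodes with `i + j ≤ h` matter.) -/
def inp {h k : ℕ} [NeZero k] (g : Fin (h + 1) × Fin (h + 1) → Fin k → Fin k → Fin k) :
    Var k → Fin k
  | Var.leaf j => if hj : j < h + 1 then g (0, ⟨j, hj⟩) 0 0 else 0
  | Var.node i j a b =>
    if hij : i + 1 < h + 1 ∧ j < h + 1 then g (⟨i + 1, hij.1⟩, ⟨j, hij.2⟩) a b else 0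

end Pool.Agent.J4H24.TH
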