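import Pool.Agent.J4H24.TH.Cuts

/-!
# Hybrid computations and the counting
-/

namespace Pool.Agent.J4H24.TH

variable {k : ℕ} {Q : Type}

/-- Extension of the values to all nodes. -/
def ext (h : ℕ) (a₀ : Fin k) (u : Fin (h + 1) × Fin (h + 1) → Fin k) : ℕ × ℕ → Fin k :=
  fun v => if hv : v.1 < h + 1 ∧ v.2 < h + 1 then u (⟨v.1, hv.1⟩, ⟨v.2, hv.2⟩) else a₀

lemma ext_eq {h : ℕ} {a₀ : Fin k} {u : Fin (h + 1) × Fin (h + 1) → Fin k}
    {v : Fin (h + 1) × Fin (h + 1)} : ext h a₀ u (v.1.val, v.2.val) = u v := by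
  unfold ext
  rw [dif_pos ⟨v.1.isLt, v.2.isLt⟩]

lemma ext_ne {h : ℕ} {a₀ : Fin k} {u u' : Fin (h + 1) × Fin (h + 1) → Fin k} {v : ℕ × ℕ}
    (hv : ext h a₀ u v ≠ ext h a₀ u' v) :
    ∃ v' : Fin (h + 1) × Fin (h + 1), ((v'.1.val, v'.2.val) : ℕ × ℕ) = v ∧ u v' ≠ u' v' := by
  unfold ext at hv
  split_ifs at hv with h2
  · exact ⟨(⟨v.1, h2.1⟩, ⟨v.2, h2.2⟩), rfl, hv⟩
  · exact absurd rfl hv

/-- The certificate with the states at the ends of the intervals. -/
structure Cert (P : Prog k Q) (h : ℕ) (f : Var k → Fin k) (L : EL k Q)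
    (st : ℕ → Q) {p m : ℕ} (g : Fin p → Fin (h + 1) × Fin (h + 1)) (s : Fin p → Fin (m + 1))
    (Z : Fin (m + 1) → Q × Q) (lo hi : ℕ → ℕ) : Prop where
  run : Rn P h f L st
  le : ∀ i, lo i ≤ hi i ∧ hi i ≤ L.length
  ends : ∀ i : Fin (m + 1), Z i = (st (lo i.val), st (hi i.val))
  inj : Function.Injective g
  need : ∀ l, Need L lo hi ((g l).1.val, (g l).2.val) (s l).val

/-- **Hybrid computation.** Two inputs with the same certificate, which agree outside the needed
nodes, are equal. -/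
theorem cert_inj {P : Prog k Q} {h : ℕ} (hT : Thrifty P) {a₀ : Fin k}
    {u u' : Fin (h + 1) × Fin (h + 1) → Fin k} {L L' : EL k Q}
    {st st' : ℕ → Q} {p m : ℕ} {g : Fin p → Fin (h + 1) × Fin (h + 1)} {s : Fin p → Fin (m + 1)}
    {Z : Fin (m + 1) → Q × Q} {lo hi lo' hi' : ℕ → ℕ}
    (C : Cert P h (cst (ext h a₀ u)) L st g s Z lo hi)
    (C' : Cert P h (cst (ext h a₀ u')) L' st' g s Z lo' hi')
    (hag : ∀ v, v ∉ Set.range g → u v = u' v) : u = u' := by
  classical
  by_contra hne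
  obtain ⟨v₁, hv₁⟩ := Function.ne_iff.mp hne
  have hin : ∀ v, u v ≠ u' v → ∃ l, g l = v := by
    intro v hv
    by_contra h
    exact hv (hag v h)
  obtain ⟨l₁, hl₁⟩ := hin v₁ hv₁
  obtain ⟨l, hl, hmin⟩ := Finset.exists_min_image
    (Finset.univ.filter (fun l => u (g l) ≠ u' (g l))) s
    ⟨l₁, Finset.mem_filter.mpr ⟨Finset.mem_univ _, by rw [hl₁]; exact hv₁⟩⟩
  have hlu : u (g l) ≠ u' (g l) := (Finset.mem_filter.mp hl).2
  set i := s l with hi_def
  -- the hybrid
  have E := C.ends i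
  have E' := C'.ends i
  rw [E] at E'
  have e1 : st (lo i.val) = st' (lo' i.val) := congrArg Prod.fst E'
  have e2 : st (hi i.val) = st' (hi' i.val) := congrArg Prod.snd E'
  have p1 := pth_seg C.run.hst 0 (lo i.val) (Nat.zero_le _)
    ((C.le i.val).1.trans (C.le i.val).2)
  have p2 := pth_seg C'.run.hst (lo' i.val) (hi' i.val) (C'.le i.val).1 (C'.le i.val).2
  have p3 := pth_seg C.run.hst (hi i.val) L.length (C.le i.val).2 le_rfl
  rw [← e1, ← e2] at p2
  have p4 := p1.append (p2.append p3)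
  rw [C.run.h0] at p4
  have hComp : (seg L 0 (lo i.val) ++ (seg L' (lo' i.val) (hi' i.val) ++
      seg L (hi i.val) L.length)) ∈ comps P (cst (ext h a₀ u)) := by
    refine ⟨(path_iff _ _).mpr ⟨_, p4, C.run.hT⟩, ?_⟩
    intro x c q hx
    rcases List.mem_append.mp hx with hx | hx
    · obtain ⟨y, _, _, hy⟩ := mem_seg.mp hx
      exact C.run.comp.2 x c q (List.mem_iff_getElem?.mpr ⟨y, hy⟩)
    rcases List.mem_append.mp hx with hx | hx
    · obtain ⟨y, hy1, hy2, hy⟩ := mem_seg.mp hx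
      have h1 := C'.run.comp.2 x c q (List.mem_iff_getElem?.mpr ⟨y, hy⟩)
      by_contra hcc
      have h2 : ext h a₀ u x.nod ≠ ext h a₀ u' x.nod := by
        intro e
        apply hcc
        unfold cst at h1 ⊢
        rw [e]; exact h1
      obtain ⟨v', hv', huv⟩ := ext_ne h2
      obtain ⟨l', hl'⟩ := hin v' huv
      have h3 : s l ≤ s l' := hmin l' (Finset.mem_filter.mpr ⟨Finset.mem_univ _, by
        rw [hl']; exact huv⟩)
      refine (C'.need l').2 i.val (by rw [hi_def]; exact h3) y hy1 hy2 ⟨x, c, q, hy, ?_⟩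
      rw [hl']; exact hv'.symm
    · obtain ⟨y, _, _, hy⟩ := mem_seg.mp hx
      exact C.run.comp.2 x c q (List.mem_iff_getElem?.mpr ⟨y, hy⟩)
  obtain ⟨x, hx1, hx2, i₀, j₀, a, b, c, q, hx, hv⟩ := (C'.need l).1
  have hmem' : (some (Var.node i₀ j₀ a b, c), q) ∈ L' := List.mem_iff_getElem?.mpr ⟨x, hx⟩
  have hmem : (some (Var.node i₀ j₀ a b, c), q) ∈
      (seg L 0 (lo i.val) ++ (seg L' (lo' i.val) (hi' i.val) ++ seg L (hi i.val) L.length)) :=
    List.mem_append.mpr (Or.inr (List.mem_append.mpr (Or.inl (mem_seg.mpr ⟨x, hx1, hx2, hx⟩))))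
  have t1 := hT _ _ C'.run.comp i₀ j₀ a b c q hmem'
  have t2 := hT _ _ hComp i₀ j₀ a b c q hmem
  have g1 : ext h a₀ u ((g l).1.val, (g l).2.val) = u (g l) := ext_eq
  have g2 : ext h a₀ u' ((g l).1.val, (g l).2.val) = u' (g l) := ext_eq
  rw [val_cst, val_cst] at t1 t2
  apply hlu
  rw [← g1, ← g2]
  rcases hv with hv | hv
  · rw [hv, ← t1.1, ← t2.1]
  · rw [hv, ← t1.2, ← t2.2]

open Classical in
/-- The value vectors with a complete computation in which the root is tested. -/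
noncomputable def Bad (P : Prog k Q) (h : ℕ) (a₀ : Fin k) :
    Finset (Fin (h + 1) × Fin (h + 1) → Fin k) :=
  Finset.univ.filter (fun u => ∃ L, L ∈ comps P (cst (ext h a₀ u)) ∧ ∃ y, Prd L y (h, 0))

/-- **The finite form of the theorem.** -/
theorem bad_card [Fintype Q] {P : Prog k Q} {h p m : ℕ} (hp : 1 ≤ p) (hM : MM p ≤ h)
    (hexc : ∀ a : Fin k, ∃ c : Fin k, c ≠ a) (a₀ : Fin k) (hW : Within h P) (hT : Thrifty P)
    (hQ : Fintype.card Q ≤ 2 ^ m) :
    (Bad P h a₀).card * k ^ p ≤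
      k ^ ((h + 1) ^ 2) * (((h + 1) ^ 2 * (m + 2)) ^ p * (2 ^ m * 2 ^ m) ^ (m + 2)) := by
  classical
  let V := Fin (h + 1) × Fin (h + 1)
  have hk : 0 < k := Fin.pos a₀
  rcases (Bad P h a₀).eq_empty_or_nonempty with he | hne
  · rw [he]; simp
  have hrun : ∀ u : {u : V → Fin k // u ∈ Bad P h a₀}, ∃ (d : (Fin p → V) ×
      (Fin p → Fin (m + 1 + 1)) × (Fin (m + 1 + 1) → Q × Q)) (L : EL k Q) (st : ℕ → Q)
      (lo hi : ℕ → ℕ), Cert P h (cst (ext h a₀ u.1)) L st d.1 d.2.1 d.2.2 lo hi := by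
    intro u
    obtain ⟨L, st, R, hlen⟩ := exists_run hT hexc (Finset.mem_filter.mp u.2).2
    have hL : L.length < 2 ^ (m + 1) := by
      rw [pow_succ]; omega
    obtain ⟨lo, hi, h1, g, s, h2, h3⟩ := exists_cert hW R hp hM hL
    exact ⟨(g, s, fun i => (st (lo i.val), st (hi i.val))), L, st, lo, hi,
      ⟨R, h1, fun i => rfl, h2, h3⟩⟩
  choose d L st lo hi hC using hrun
  have hV : Fintype.card V = (h + 1) ^ 2 := by
    simp only [V, Fintype.card_prod, Fintype.card_fin]; ring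
  have hcinj : ∀ u, Function.Injective (d u).1 := fun u => (hC u).inj
  have hpN : p ≤ (h + 1) ^ 2 := by
    obtain ⟨u₀, hu₀⟩ := hne
    have := Fintype.card_le_of_injective _ (hcinj ⟨u₀, hu₀⟩)
    rwa [hV, Fintype.card_fin] at this
  have hfib : ∀ b ∈ (Finset.univ : Finset {u : V → Fin k // u ∈ Bad P h a₀}).image d,
      ((Finset.univ : Finset {u : V → Fin k // u ∈ Bad P h a₀}).filter (fun u => d u = b)).card
        ≤ k ^ ((h + 1) ^ 2 - p) := by
    intro b hb
    obtain ⟨u₀, _, hu₀⟩ := Finset.mem_image.mp hb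
    have hbinj : Function.Injective b.1 := by rw [← hu₀]; exact hcinj u₀
    let G : {u : {u : V → Fin k // u ∈ Bad P h a₀} // d u = b} →
        ({v : V // v ∉ Set.range b.1} → Fin k) := fun u v => u.1.1 v.1
    have hG : Function.Injective G := by
      rintro ⟨u, hu⟩ ⟨u', hu'⟩ e
      apply Subtype.ext
      apply Subtype.ext
      have c1 := hC u
      have c2 := hC u'
      rw [hu] at c1
      rw [hu'] at c2
      refine cert_inj hT c1 c2 ?_
      intro v hv
      exact congrFun e ⟨v, hv⟩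
    have h1 := Fintype.card_le_of_injective G hG
    rw [Fintype.card_fun, Fintype.card_fin] at h1
    have h2 : Fintype.card {v : V // v ∉ Set.range b.1} = (h + 1) ^ 2 - p := by
      have h3 : Fintype.card {v : V // v ∈ Set.range b.1} = p := by
        have := Set.card_range_of_injective hbinj
        rw [Fintype.card_fin] at this
        exact this
      rw [Fintype.card_subtype_compl, hV]
      congr 1
    rw [h2, Fintype.card_subtype] at h1
    exact h1
  have hmain := Finset.card_le_mul_card_image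
    (s := (Finset.univ : Finset {u : V → Fin k // u ∈ Bad P h a₀})) (f := d)
    (k ^ ((h + 1) ^ 2 - p)) hfib
  have hD' : ((Finset.univ : Finset {u : V → Fin k // u ∈ Bad P h a₀}).image d).card ≤
      ((h + 1) ^ 2 * (m + 2)) ^ p * (2 ^ m * 2 ^ m) ^ (m + 2) := by
    refine (Finset.card_le_univ _).trans ?_
    have e1 : Fintype.card (Fin p → V) = ((h + 1) ^ 2) ^ p := by
      rw [Fintype.card_fun, hV, Fintype.card_fin]
    have e2 : Fintype.card (Fin p → Fin (m + 1 + 1)) = (m + 2) ^ p := by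
      rw [Fintype.card_fun, Fintype.card_fin, Fintype.card_fin]
    have e3 : Fintype.card (Fin (m + 1 + 1) → Q × Q) =
        (Fintype.card Q * Fintype.card Q) ^ (m + 2) := by
      rw [Fintype.card_fun, Fintype.card_prod, Fintype.card_fin]
    rw [Fintype.card_prod, Fintype.card_prod, e1, e2, e3,
      ← mul_assoc (((h + 1) ^ 2) ^ p), ← mul_pow]
    gcongr
  have hcard : (Finset.univ : Finset {u : V → Fin k // u ∈ Bad P h a₀}).card =
      (Bad P h a₀).card := by
    rw [Finset.card_univ, Fintype.card_coe]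
  rw [hcard] at hmain
  calc (Bad P h a₀).card * k ^ p
      ≤ (k ^ ((h + 1) ^ 2 - p) * (((h + 1) ^ 2 * (m + 2)) ^ p *
        (2 ^ m * 2 ^ m) ^ (m + 2))) * k ^ p :=
        Nat.mul_le_mul_right _ (hmain.trans (Nat.mul_le_mul_left _ hD'))
    _ = k ^ ((h + 1) ^ 2) * (((h + 1) ^ 2 * (m + 2)) ^ p * (2 ^ m * 2 ^ m) ^ (m + 2)) := by
        have : k ^ ((h + 1) ^ 2) = k ^ ((h + 1) ^ 2 - p) * k ^ p := by
          rw [← pow_add, Nat.sub_add_cancel hpN]
        rw [this]; ring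

end Pool.Agent.J4H24.TH
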