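import Mathlib

/-!
# A pebbling bound for pyramids

Node `(i, j)` of the pyramid (height `i`, position `j`) has the predecessors `(i-1, j)` and
`(i-1, j+1)` when `i ≠ 0`.
-/

namespace Pool.Agent.J4H24.TH

/-- `S` blocks the node `(i, j)`: every descending path from it meets `S`. -/
def blk (S : Finset (ℕ × ℕ)) : ℕ → ℕ → Prop
  | 0, j => (0, j) ∈ S
  | i + 1, j => (i + 1, j) ∈ S ∨ (blk S i j ∧ blk S i (j + 1))

open Classical in
/-- The least height of a first hit of `S` on a descending path from `(i, j)`. -/
noncomputable def fh (S : Finset (ℕ × ℕ)) : ℕ → ℕ → ℕ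
  | 0, _ => 0
  | i + 1, j => if (i + 1, j) ∈ S then i + 1 else min (fh S i j) (fh S i (j + 1))

lemma blk_mono {S S' : Finset (ℕ × ℕ)} (h : S ⊆ S') : ∀ i j, blk S i j → blk S' i j
  | 0, _ => fun H => h H
  | i + 1, j => fun H => H.elim (fun H => Or.inl (h H))
      (fun H => Or.inr ⟨blk_mono h i j H.1, blk_mono h i (j + 1) H.2⟩)

lemma blk_of_mem {S : Finset (ℕ × ℕ)} : ∀ i j, (i, j) ∈ S → blk S i j
  | 0, _ => fun H => H
  | _ + 1, _ => fun H => Or.inl H

lemma blk_trans {S S' : Finset (ℕ × ℕ)} (h : ∀ v ∈ S, blk S' v.1 v.2) :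
    ∀ i j, blk S i j → blk S' i j
  | 0, j => fun H => h (0, j) H
  | i + 1, j => fun H => H.elim (fun H => h (i + 1, j) H)
      (fun H => Or.inr ⟨blk_trans h i j H.1, blk_trans h i (j + 1) H.2⟩)

lemma blk_low {S : Finset (ℕ × ℕ)} {w : ℕ × ℕ} :
    ∀ i j, i < w.1 → blk (insert w S) i j → blk S i j
  | 0, j => fun h0 H => by
      rcases Finset.mem_insert.mp H with H | H
      · rw [← H] at h0; simp at h0
      · exact H
  | i + 1, j => fun h0 H => by
      rcases H with H | H
      · rcases Finset.mem_insert.mp H with H | H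
        · rw [← H] at h0; simp at h0
        · exact Or.inl H
      · exact Or.inr ⟨blk_low i j (by omega) H.1, blk_low i (j + 1) (by omega) H.2⟩

lemma fh_le {S : Finset (ℕ × ℕ)} : ∀ i j, fh S i j ≤ i
  | 0, _ => le_rfl
  | i + 1, j => by
      unfold fh
      split_ifs
      · exact le_rfl
      · exact (min_le_left _ _).trans ((fh_le i j).trans (by omega))

lemma keep {S : Finset (ℕ × ℕ)} {m : ℕ} :
    ∀ i j, m ≤ fh S i j → blk S i j → blk (S.filter (fun v => m ≤ v.1)) i j
  | 0, j => fun h0 H => Finset.mem_filter.mpr ⟨H, h0⟩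
  | i + 1, j => fun h0 H => by
      by_cases hm : (i + 1, j) ∈ S
      · exact Or.inl (Finset.mem_filter.mpr ⟨hm, h0.trans (fh_le _ _)⟩)
      · have e : fh S (i + 1) j = min (fh S i j) (fh S i (j + 1)) := by
          rw [fh]; simp [hm]
        rw [e] at h0
        rcases H with H | H
        · exact absurd H hm
        · exact Or.inr ⟨keep i j (h0.trans (min_le_left _ _)) H.1,
            keep i (j + 1) (h0.trans (min_le_right _ _)) H.2⟩

lemma diag {S : Finset (ℕ × ℕ)} :
    ∀ i j, blk S i j → ∃ x, x ≤ i ∧ fh S i j ≤ x ∧ (x, j + (i - x)) ∈ S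
  | 0, j => fun H => ⟨0, le_rfl, le_rfl, H⟩
  | i + 1, j => fun H => by
      by_cases hm : (i + 1, j) ∈ S
      · exact ⟨i + 1, le_rfl, fh_le _ _, by simpa using hm⟩
      · have e : fh S (i + 1) j = min (fh S i j) (fh S i (j + 1)) := by
          rw [fh]; simp [hm]
        rcases H with H | H
        · exact absurd H hm
        · obtain ⟨x, h1, h2, h3⟩ := diag i (j + 1) H.2
          refine ⟨x, by omega, ?_, ?_⟩
          · rw [e]; exact (min_le_right _ _).trans h2
          · have : j + (i + 1 - x) = j + 1 + (i - x) := by omega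
            rw [this]; exact h3

lemma col {S : Finset (ℕ × ℕ)} :
    ∀ i j, blk S i j → ∃ x, x ≤ i ∧ fh S i j ≤ x ∧ (x, j) ∈ S
  | 0, j => fun H => ⟨0, le_rfl, le_rfl, H⟩
  | i + 1, j => fun H => by
      by_cases hm : (i + 1, j) ∈ S
      · exact ⟨i + 1, le_rfl, fh_le _ _, hm⟩
      · have e : fh S (i + 1) j = min (fh S i j) (fh S i (j + 1)) := by
          rw [fh]; simp [hm]
        rcases H with H | H
        · exact absurd H hm
        · obtain ⟨x, h1, h2, h3⟩ := col i j H.1
          refine ⟨x, by omega, ?_, h3⟩
          rw [e]; exact (min_le_left _ _).trans h2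

/-- The part of `S` in the triangle under `(i, j)`, of height at least `m`. -/
def tri (S : Finset (ℕ × ℕ)) (i j m : ℕ) : Finset (ℕ × ℕ) :=
  S.filter (fun v => m ≤ v.1 ∧ j ≤ v.2 ∧ v.1 + v.2 ≤ i + j)

lemma cnt_tri {S : Finset (ℕ × ℕ)} :
    ∀ i j, blk S i j → i + 1 ≤ (tri S i j (fh S i j)).card + fh S i j
  | 0, j => fun H => by
      have : 0 < (tri S 0 j (fh S 0 j)).card := by
        apply Finset.card_pos.mpr
        exact ⟨(0, j), Finset.mem_filter.mpr ⟨H, by simp [fh]⟩⟩
      omega
  | i + 1, j => fun H => by
      by_cases hm : (i + 1, j) ∈ S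
      · have e : fh S (i + 1) j = i + 1 := by rw [fh]; simp [hm]
        have : 0 < (tri S (i + 1) j (fh S (i + 1) j)).card := by
          apply Finset.card_pos.mpr
          exact ⟨(i + 1, j), Finset.mem_filter.mpr ⟨hm, by simp [e]⟩⟩
        omega
      · have e : fh S (i + 1) j = min (fh S i j) (fh S i (j + 1)) := by
          rw [fh]; simp [hm]
        rcases H with H | H
        · exact absurd H hm
        · rcases le_total (fh S i j) (fh S i (j + 1)) with hle | hle
          · have e2 : fh S (i + 1) j = fh S i j := by rw [e]; exact min_eq_left hle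
            have ih := cnt_tri i j H.1
            obtain ⟨x, h1, h2, h3⟩ := diag i (j + 1) H.2
            have hn : (x, j + 1 + (i - x)) ∉ tri S i j (fh S i j) := by
              intro h
              have := (Finset.mem_filter.mp h).2.2.2
              simp only at this
              omega
            have hs : insert (x, j + 1 + (i - x)) (tri S i j (fh S i j))
                ⊆ tri S (i + 1) j (fh S (i + 1) j) := by
              intro v hv
              rcases Finset.mem_insert.mp hv with hv | hv
              · rw [hv]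
                refine Finset.mem_filter.mpr ⟨h3, ?_, ?_, ?_⟩
                · rw [e2]; exact hle.trans h2
                · simp only; omega
                · simp only; omega
              · obtain ⟨a, b, c, d⟩ := Finset.mem_filter.mp hv
                exact Finset.mem_filter.mpr ⟨a, by rw [e2]; exact b, c, by omega⟩
            have := Finset.card_le_card hs
            rw [Finset.card_insert_of_notMem hn] at this
            omega
          · have e2 : fh S (i + 1) j = fh S i (j + 1) := by rw [e]; exact min_eq_right hle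
            have ih := cnt_tri i (j + 1) H.2
            obtain ⟨x, h1, h2, h3⟩ := col i j H.1
            have hn : (x, j) ∉ tri S i (j + 1) (fh S i (j + 1)) := by
              intro h
              have := (Finset.mem_filter.mp h).2.2.1
              simp only at this
              omega
            have hs : insert (x, j) (tri S i (j + 1) (fh S i (j + 1)))
                ⊆ tri S (i + 1) j (fh S (i + 1) j) := by
              intro v hv
              rcases Finset.mem_insert.mp hv with hv | hv
              · rw [hv]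
                refine Finset.mem_filter.mpr ⟨h3, ?_, ?_, ?_⟩
                · rw [e2]; exact hle.trans h2
                · simp only; omega
                · simp only; omega
              · obtain ⟨a, b, c, d⟩ := Finset.mem_filter.mp hv
                exact Finset.mem_filter.mpr ⟨a, by rw [e2]; exact b, by omega, by omega⟩
            have := Finset.card_le_card hs
            rw [Finset.card_insert_of_notMem hn] at this
            omega

lemma cnt {S : Finset (ℕ × ℕ)} (i j : ℕ) (H : blk S i j) :
    i + 1 ≤ (S.filter (fun v => fh S i j ≤ v.1)).card + fh S i j := by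
  have h1 := cnt_tri i j H
  have h2 : (tri S i j (fh S i j)).card ≤ (S.filter (fun v => fh S i j ≤ v.1)).card := by
    apply Finset.card_le_card
    intro v hv
    obtain ⟨a, b, _, _⟩ := Finset.mem_filter.mp hv
    exact Finset.mem_filter.mpr ⟨a, b⟩
  omega

/-- The bound on the height. -/
def MM (p : ℕ) : ℕ := (2 * p + 1) * (2 * p ^ 2 + 3 * p + 2)

/-- The measure condition. -/
def Mes (p : ℕ) (U : Finset (ℕ × ℕ)) : Prop :=
  ∀ j, (U.filter (fun v => j ≤ v.1)).Nonempty →
    j + (2 * p + 1) * (U.filter (fun v => j ≤ v.1)).card ≤ MM p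

/-- The scale `i (2p+1)²`. -/
def La (p i : ℕ) : ℕ := i * (2 * p + 1) ^ 2

lemma gap (p : ℕ) (B : Finset (ℕ × ℕ)) (hB : B.card ≤ p) :
    ∃ i, i ≤ p ∧ ∀ b ∈ B, b.1 + La p (i + 1) ≤ MM p ∨ MM p < b.1 + La p i := by
  classical
  by_contra hcon
  push Not at hcon
  have hch : ∀ i : Fin (p + 1), ∃ b ∈ B, MM p < b.1 + La p (i.val + 1) ∧ b.1 + La p i.val ≤ MM p :=
    fun i => hcon i.val (by omega)
  choose f hf1 hf2 using hch
  have hinj : Function.Injective f := by
    intro i i' e
    by_contra hne
    have hne' : i.val ≠ i'.val := fun h => hne (Fin.ext h)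
    have key : ∀ a a' : Fin (p + 1), f a = f a' → a.val < a'.val → False := by
      intro a a' e hlt
      have h1 := (hf2 a).1
      have h2 := (hf2 a').2
      rw [e] at h1
      have : La p (a.val + 1) ≤ La p a'.val := by
        unfold La
        exact Nat.mul_le_mul_right _ hlt
      omega
    rcases lt_or_gt_of_ne hne' with h | h
    · exact key i i' e h
    · exact key i' i e.symm h
  have : p + 1 ≤ B.card := by
    calc p + 1 = (Finset.univ : Finset (Fin (p + 1))).card := by simp
      _ = (Finset.univ.image f).card := (Finset.card_image_of_injective _ hinj).symm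
      _ ≤ B.card := Finset.card_le_card (by
          intro b hb
          obtain ⟨i, _, rfl⟩ := Finset.mem_image.mp hb
          exact hf1 i)
  omega

lemma compress {p : ℕ} (hp : 1 ≤ p) {U W B : Finset (ℕ × ℕ)} (hU : Mes p U)
    (hW : W.card ≤ p) (hB : B.card ≤ p) (hb : ∀ v ∈ B, blk (U ∪ W) v.1 v.2) :
    ∃ U' : Finset (ℕ × ℕ), Mes p U' ∧ U'.card ≤ 2 * p ^ 2 + 3 * p + 1 ∧
      ∀ v ∈ B, blk (U' ∪ W) v.1 v.2 := by
  classical
  obtain ⟨i, hi, hgap⟩ := gap p B hB
  set K : Finset (ℕ × ℕ) :=
    U.filter (fun x => 2 * p * MM p ≤ 2 * p * x.1 + (2 * p + 1) * (La p i + p)) with hK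
  set Lo : Finset (ℕ × ℕ) := B.filter (fun b => b.1 + La p (i + 1) ≤ MM p) with hLo
  have hLoc : Lo.card ≤ p := (Finset.card_le_card (Finset.filter_subset _ _)).trans hB
  have hKc : 2 * p * K.card ≤ La p i + p := by
    rcases K.eq_empty_or_nonempty with he | hne
    · rw [he]; simp
    · obtain ⟨x, hx, hmin⟩ := Finset.exists_min_image K (fun v => v.1) hne
      have hxU := (Finset.mem_filter.mp hx)
      have h1 : K ⊆ U.filter (fun v => x.1 ≤ v.1) := by
        intro v hv
        exact Finset.mem_filter.mpr ⟨(Finset.mem_filter.mp hv).1, hmin v hv⟩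
      have h2 := hU x.1 ⟨x, Finset.mem_filter.mpr ⟨hxU.1, le_rfl⟩⟩
      have h3 := Finset.card_le_card h1
      have h4 : x.1 + (2 * p + 1) * K.card ≤ MM p :=
        le_trans (by gcongr) h2
      have h5 := hxU.2
      have h6 : (2 * p + 1) * (2 * p * K.card) ≤ (2 * p + 1) * (La p i + p) := by
        have h7 : 2 * p * (x.1 + (2 * p + 1) * K.card) ≤ 2 * p * MM p :=
          Nat.mul_le_mul_left _ h4
        nlinarith
      exact Nat.le_of_mul_le_mul_left h6 (by omega)
  have hLa : La p i ≤ p * (2 * p + 1) ^ 2 := Nat.mul_le_mul_right _ hi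
  have hKc2 : K.card ≤ 2 * p ^ 2 + 2 * p + 1 := by
    have : 2 * p * K.card ≤ 2 * p * (2 * p ^ 2 + 2 * p + 1) := by nlinarith
    exact Nat.le_of_mul_le_mul_left this (by omega)
  refine ⟨K ∪ Lo, ?_, ?_, ?_⟩
  · intro j hj
    by_cases hc : ∃ b ∈ Lo, j ≤ b.1
    · obtain ⟨b, hbL, hjb⟩ := hc
      have h1 := (Finset.mem_filter.mp hbL).2
      have h2 : ((K ∪ Lo).filter (fun v => j ≤ v.1)).card ≤ K.card + p := by
        calc ((K ∪ Lo).filter (fun v => j ≤ v.1)).card ≤ (K ∪ Lo).card :=
              Finset.card_le_card (Finset.filter_subset _ _)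
          _ ≤ K.card + Lo.card := Finset.card_union_le _ _
          _ ≤ _ := by omega
      have h3 : La p (i + 1) = La p i + (2 * p + 1) ^ 2 := by unfold La; ring
      have h4 : (2 * p + 1) * (K.card + p) ≤ La p (i + 1) := by
        rw [h3]
        nlinarith
      have h5 : (2 * p + 1) * ((K ∪ Lo).filter (fun v => j ≤ v.1)).card
          ≤ (2 * p + 1) * (K.card + p) := Nat.mul_le_mul_left _ h2
      omega
    · push Not at hc
      have h1 : (K ∪ Lo).filter (fun v => j ≤ v.1) ⊆ U.filter (fun v => j ≤ v.1) := by
        intro v hv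
        obtain ⟨h1, h2⟩ := Finset.mem_filter.mp hv
        rcases Finset.mem_union.mp h1 with h | h
        · exact Finset.mem_filter.mpr ⟨(Finset.mem_filter.mp h).1, h2⟩
        · exact absurd h2 (by have := hc v h; omega)
      have h2 := hU j (hj.mono h1)
      have h3 := Finset.card_le_card h1
      have h4 : (2 * p + 1) * ((K ∪ Lo).filter (fun v => j ≤ v.1)).card
          ≤ (2 * p + 1) * (U.filter (fun v => j ≤ v.1)).card := Nat.mul_le_mul_left _ h3
      omega
  · calc (K ∪ Lo).card ≤ K.card + Lo.card := Finset.card_union_le _ _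
      _ ≤ _ := by omega
  · intro v hv
    rcases hgap v hv with hl | hh
    · exact blk_of_mem _ _ (Finset.mem_union.mpr (Or.inl (Finset.mem_union.mpr (Or.inr
        (Finset.mem_filter.mpr ⟨hv, hl⟩)))))
    · have hbv := hb v hv
      set m := fh (U ∪ W) v.1 v.2 with hm
      have hk := keep (m := m) v.1 v.2 le_rfl hbv
      have hc := cnt v.1 v.2 hbv
      rw [← hm] at hc
      refine blk_mono ?_ v.1 v.2 hk
      intro x hx
      obtain ⟨hx1, hx2⟩ := Finset.mem_filter.mp hx
      rcases Finset.mem_union.mp hx1 with h | h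
      · refine Finset.mem_union.mpr (Or.inl (Finset.mem_union.mpr (Or.inl
          (Finset.mem_filter.mpr ⟨h, ?_⟩))))
        have h1 := hU m ⟨x, Finset.mem_filter.mpr ⟨h, hx2⟩⟩
        have h2 : ((U ∪ W).filter (fun v => m ≤ v.1)).card
            ≤ (U.filter (fun v => m ≤ v.1)).card + p := by
          rw [Finset.filter_union]
          calc _ ≤ (U.filter (fun v => m ≤ v.1)).card + (W.filter (fun v => m ≤ v.1)).card :=
                Finset.card_union_le _ _
            _ ≤ _ := by
                have := Finset.card_le_card (Finset.filter_subset (fun v => m ≤ v.1) W)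
                omega
        set u := (U.filter (fun v => m ≤ v.1)).card with hu
        have h3 : MM p + 2 ≤ u + p + m + La p i := by omega
        have h4 : 2 * p * MM p ≤ 2 * p * m + (2 * p + 1) * (La p i + p) := by
          have h5 : (2 * p + 1) * (MM p + 2) ≤ (2 * p + 1) * (u + p + m + La p i) :=
            Nat.mul_le_mul_left _ h3
          nlinarith
        have h6 : 2 * p * m ≤ 2 * p * x.1 := Nat.mul_le_mul_left _ hx2
        omega
      · exact Finset.mem_union.mpr (Or.inr h)

/-- **The pebbling bound.** Black sets `B t` and white sets `W t` of size at most `p`, as in a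
black-white pebbling in which a step `w` may be repeated, allow only heights below `MM p`. -/
theorem pyr {p h T : ℕ} (hp : 1 ≤ p) (B W : ℕ → Finset (ℕ × ℕ))
    (h0 : B 0 = ∅) (hWT : W T = ∅) (hroot : (h, 0) ∈ B T)
    (hst : ∀ t < T, (B (t + 1) ⊆ B t ∧ W t ⊆ W (t + 1)) ∨
      ∃ w : ℕ × ℕ, B (t + 1) ⊆ insert w (B t) ∧ W t ⊆ insert w (W (t + 1)) ∧
        ∀ i, w.1 = i + 1 → (i, w.2) ∈ B t ∪ W (t + 1) ∧ (i, w.2 + 1) ∈ B t ∪ W (t + 1))
    (hcB : ∀ t ≤ T, (B t).card ≤ p) (hcW : ∀ t ≤ T, (W t).card ≤ p) : h + 1 ≤ MM p := by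
  classical
  have key : ∀ t, t ≤ T → ∃ U : Finset (ℕ × ℕ), Mes p U ∧ ∀ v ∈ B t, blk (U ∪ W t) v.1 v.2 := by
    intro t
    induction t with
    | zero =>
      intro _
      refine ⟨∅, ?_, ?_⟩
      · intro j hj; simp at hj
      · intro v hv; rw [h0] at hv; simp at hv
    | succ t ih =>
      intro ht
      obtain ⟨U, hU, hb⟩ := ih (by omega)
      rcases hst t (by omega) with ⟨h1, h2⟩ | ⟨w, h1, h2, h3⟩
      · refine ⟨U, hU, fun v hv => ?_⟩
        exact blk_mono (Finset.union_subset_union_right h2) _ _ (hb v (h1 hv))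
      · -- compress first
        obtain ⟨U', hU', hc', hb'⟩ := compress hp hU (hcW t (by omega)) (hcB t (by omega)) hb
        rcases Nat.eq_zero_or_pos w.1 with hw | hw
        · refine ⟨insert w U', ?_, ?_⟩
          · intro j hj
            rcases Nat.eq_zero_or_pos j with hj0 | hj0
            · subst hj0
              have h5 : ((insert w U').filter (fun v => 0 ≤ v.1)).card ≤ 2 * p ^ 2 + 3 * p + 2 :=
                calc _ ≤ (insert w U').card := Finset.card_le_card (Finset.filter_subset _ _)
                  _ ≤ U'.card + 1 := Finset.card_insert_le _ _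
                  _ ≤ _ := by omega
              unfold MM
              rw [Nat.zero_add]
              exact Nat.mul_le_mul_left _ h5
            · have h5 : (insert w U').filter (fun v => j ≤ v.1) = U'.filter (fun v => j ≤ v.1) := by
                rw [Finset.filter_insert, if_neg (by omega)]
              rw [h5] at hj ⊢
              exact hU' j hj
          · have hsub : U' ∪ W t ⊆ insert w U' ∪ W (t + 1) := by
              intro x hx
              rcases Finset.mem_union.mp hx with hx | hx
              · exact Finset.mem_union.mpr (Or.inl (Finset.mem_insert_of_mem hx))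
              · rcases Finset.mem_insert.mp (h2 hx) with h | h
                · exact Finset.mem_union.mpr (Or.inl (by rw [h]; exact Finset.mem_insert_self _ _))
                · exact Finset.mem_union.mpr (Or.inr h)
            intro v hv
            rcases Finset.mem_insert.mp (h1 hv) with h | h
            · rw [h]
              exact blk_of_mem _ _ (Finset.mem_union.mpr (Or.inl (Finset.mem_insert_self _ _)))
            · exact blk_mono hsub _ _ (hb' v h)
        · obtain ⟨i, hi⟩ : ∃ i, w.1 = i + 1 := ⟨w.1 - 1, by omega⟩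
          obtain ⟨h4, h5⟩ := h3 i hi
          have hsub : U' ∪ W t ⊆ insert w (U' ∪ W (t + 1)) := by
            intro x hx
            rcases Finset.mem_union.mp hx with hx | hx
            · exact Finset.mem_insert_of_mem (Finset.mem_union.mpr (Or.inl hx))
            · rcases Finset.mem_insert.mp (h2 hx) with h | h
              · rw [h]; exact Finset.mem_insert_self _ _
              · exact Finset.mem_insert_of_mem (Finset.mem_union.mpr (Or.inr h))
          have hpr : ∀ j, (i, j) ∈ B t ∪ W (t + 1) → blk (U' ∪ W (t + 1)) i j := by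
            intro j hj
            rcases Finset.mem_union.mp hj with hj | hj
            · exact blk_low (w := w) i j (by omega) (blk_mono hsub _ _ (hb' (i, j) hj))
            · exact blk_of_mem _ _ (Finset.mem_union.mpr (Or.inr hj))
          have hwb : blk (U' ∪ W (t + 1)) w.1 w.2 := by
            rw [hi]
            exact Or.inr ⟨hpr _ h4, hpr _ h5⟩
          have htr : ∀ v ∈ insert w (U' ∪ W (t + 1)), blk (U' ∪ W (t + 1)) v.1 v.2 := by
            intro v hv
            rcases Finset.mem_insert.mp hv with h | h
            · rw [h]; exact hwb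
            · exact blk_of_mem _ _ h
          refine ⟨U', hU', fun v hv => ?_⟩
          rcases Finset.mem_insert.mp (h1 hv) with h | h
          · rw [h]; exact hwb
          · exact blk_trans htr _ _ (blk_mono hsub _ _ (hb' v h))
  obtain ⟨U, hU, hb⟩ := key T le_rfl
  have h1 := hb _ hroot
  rw [hWT, Finset.union_empty] at h1
  have h2 := cnt h 0 h1
  set m := fh U h 0
  rcases (U.filter (fun v => m ≤ v.1)).eq_empty_or_nonempty with he | hne
  · have h3 := keep (m := m) h 0 le_rfl h1
    rw [he] at h3
    obtain ⟨x, _, _, h4⟩ := col h 0 h3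
    simp at h4
  · have h3 := hU m hne
    have h4 : (U.filter (fun v => m ≤ v.1)).card
        ≤ (2 * p + 1) * (U.filter (fun v => m ≤ v.1)).card :=
      Nat.le_mul_of_pos_left _ (by omega)
    omega

lemma MM_le (p : ℕ) : MM p ≤ 4 * (p + 1) ^ 3 := by
  unfold MM
  nlinarith

end Pool.Agent.J4H24.TH
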