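import Pool.Agent.J4H24.TH.Defs
import Pool.Agent.J4H24.TH.Pyr

/-!
# Runs of programs
-/

namespace Pool.Agent.J4H24.TH

variable {k : ℕ} {Q : Type}

/-- Lists of edges. -/
abbrev EL (k : ℕ) (Q : Type) := List (Option (Var k × Fin k) × Q)

/-- Paths between two states. -/
inductive Pth (P : Prog k Q) : Q → EL k Q → Q → Prop
  | nil (q : Q) : Pth P q [] q
  | cons {q q' q'' : Q} {e : Option (Var k × Fin k)} {L : EL k Q} :
      P.edge q e q' → Pth P q' L q'' → Pth P q ((e, q') :: L) q''

lemma path_iff {P : Prog k Q} : ∀ (L : EL k Q) (q : Q),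
    Path P q L ↔ ∃ q', Pth P q L q' ∧ P.fin q'
  | [], q => by
      constructor
      · intro h; exact ⟨q, Pth.nil q, h⟩
      · rintro ⟨q', h, hf⟩
        cases h; exact hf
  | (e, q₁) :: L, q => by
      constructor
      · rintro ⟨h, h'⟩
        obtain ⟨q', h1, h2⟩ := (path_iff L q₁).mp h'
        exact ⟨q', Pth.cons h h1, h2⟩
      · rintro ⟨q', h, hf⟩
        cases h with
        | cons h1 h2 => exact ⟨h1, (path_iff L q₁).mpr ⟨q', h2, hf⟩⟩

lemma Pth.append {P : Prog k Q} {q q' q'' : Q} {L L' : EL k Q}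
    (h1 : Pth P q L q') (h2 : Pth P q' L' q'') : Pth P q (L ++ L') q'' := by
  induction h1 with
  | nil q => exact h2
  | cons h _ ih => exact Pth.cons h (ih h2)

/-- The states along a path. -/
def Sts (P : Prog k Q) (L : EL k Q) (st : ℕ → Q) : Prop :=
  ∀ t e q, L[t]? = some (e, q) → q = st (t + 1) ∧ P.edge (st t) e (st (t + 1))

lemma exists_sts {P : Prog k Q} {q q' : Q} {L : EL k Q}
    (h : Pth P q L q') : ∃ st : ℕ → Q, st 0 = q ∧ st L.length = q' ∧ Sts P L st := by
  induction h with
  | nil q => exact ⟨fun _ => q, rfl, rfl, fun t e q he => by simp at he⟩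
  | @cons q q' q'' e L h _ ih =>
    obtain ⟨st, h0, h1, h2⟩ := ih
    refine ⟨fun t => if t = 0 then q else st (t - 1), by simp, by simpa using h1, ?_⟩
    intro t e' p he
    cases t with
    | zero =>
      simp only [List.getElem?_cons_zero, Option.some.injEq, Prod.mk.injEq] at he
      obtain ⟨he1, he2⟩ := he
      subst he1
      subst he2
      simpa [h0] using h
    | succ t =>
      simp only [List.getElem?_cons_succ] at he
      simpa using h2 t e' p he

/-- The part of the list between two positions. -/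
def seg (L : EL k Q) (a b : ℕ) : EL k Q :=
  (L.take b).drop a

lemma mem_seg {L : EL k Q} {a b : ℕ} {e : Option (Var k × Fin k) × Q} :
    e ∈ seg L a b ↔ ∃ y, a ≤ y ∧ y < b ∧ L[y]? = some e := by
  unfold seg
  rw [List.mem_iff_getElem?]
  constructor
  · rintro ⟨i, hi⟩
    rw [List.getElem?_drop, List.getElem?_take] at hi
    split_ifs at hi with h
    exact ⟨a + i, by omega, h, hi⟩
  · rintro ⟨y, h1, h2, h3⟩
    refine ⟨y - a, ?_⟩
    rw [List.getElem?_drop, List.getElem?_take, if_pos (by omega)]
    have : a + (y - a) = y := by omega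
    rw [this]; exact h3

lemma length_seg {L : EL k Q} {a b : ℕ} (hb : b ≤ L.length) :
    (seg L a b).length = b - a := by
  unfold seg
  simp; omega

lemma pth_seg {P : Prog k Q} {L : EL k Q} {st : ℕ → Q}
    (h : Sts P L st) (a : ℕ) : ∀ b, a ≤ b → b ≤ L.length → Pth P (st a) (seg L a b) (st b) := by
  intro b
  induction b with
  | zero =>
    intro h1 _
    have : a = 0 := by omega
    subst this
    simpa [seg] using Pth.nil (P := P) (st 0)
  | succ b ih =>
    intro h1 h2
    rcases Nat.lt_or_ge b a with hlt | hge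
    · have : a = b + 1 := by omega
      subst this
      have : seg L (b + 1) (b + 1) = [] := by
        unfold seg
        apply List.drop_eq_nil_of_le
        simp
      rw [this]
      exact Pth.nil _
    · have hlt : b < L.length := by omega
      have e : seg L a (b + 1) = seg L a b ++ [L[b]] := by
        unfold seg
        rw [List.take_succ_eq_append_getElem hlt, List.drop_append_of_le_length]
        simp; omega
      have hb := h b L[b].1 L[b].2 (List.getElem?_eq_getElem hlt)
      have e2 : L[b] = (L[b].1, st (b + 1)) := Prod.ext rfl hb.1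
      rw [e, e2]
      exact (ih hge (by omega)).append (Pth.cons hb.2 (Pth.nil _))

/-- A use of `v` at step `x`: a test at a parent of `v`. -/
def Use (L : EL k Q) (x : ℕ) (v : ℕ × ℕ) : Prop :=
  ∃ i j a b c q, L[x]? = some (some (Var.node i j a b, c), q) ∧ (v = (i, j) ∨ v = (i, j + 1))

/-- A production of `v` at step `x`: a test at `v`. -/
def Prd (L : EL k Q) (x : ℕ) (v : ℕ × ℕ) : Prop :=
  ∃ y c q, L[x]? = some (some (y, c), q) ∧ Var.nod y = v

/-- The input all of whose tables are constant, with value `w v` at node `v`. -/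
def cst (w : ℕ × ℕ → Fin k) : Var k → Fin k := fun x => w x.nod

lemma val_cst (w : ℕ × ℕ → Fin k) (i j : ℕ) : val (cst w) i j = w (i, j) := by
  cases i <;> rfl

/-- A run of the program, with the properties which are used. -/
structure Rn (P : Prog k Q) (h : ℕ) (f : Var k → Fin k) (L : EL k Q)
    (st : ℕ → Q) : Prop where
  comp : L ∈ comps P f
  h0 : st 0 = P.start
  hT : P.fin (st L.length)
  hst : Sts P L st
  all : ∀ v : ℕ × ℕ, v.1 + v.2 ≤ h → ∃ y, Prd L y v

lemma mem_within {P : Prog k Q} {h : ℕ} (hP : Within h P) {L : EL k Q}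
    {st : ℕ → Q} (hs : Sts P L st) {x : Var k} {c : Fin k} {q : Q} {t : ℕ}
    (hx : L[t]? = some (some (x, c), q)) : x.nod.1 + x.nod.2 ≤ h :=
  hP _ _ _ _ (hs t _ _ hx).2

/-- Change of the value at one node which is not tested. -/
lemma chg {P : Prog k Q} {w : ℕ × ℕ → Fin k} {L : EL k Q} (hL : L ∈ comps P (cst w))
    (v : ℕ × ℕ) (hv : ¬ ∃ y, Prd L y v) {w' : ℕ × ℕ → Fin k} (hw' : ∀ v', v' ≠ v → w' v' = w v') :
    L ∈ comps P (cst w') := by
  refine ⟨hL.1, ?_⟩
  intro x d q hx
  have hne : x.nod ≠ v := by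
    intro e
    obtain ⟨y, hy⟩ := List.mem_iff_getElem?.mp hx
    exact hv ⟨y, x, d, q, hy, e⟩
  have := hL.2 x d q hx
  unfold cst at this ⊢
  rw [hw' _ hne]
  exact this

open Classical in
/-- A short computation in which all nodes are tested. -/
lemma exists_run [Fintype Q] {P : Prog k Q} {h : ℕ} (hT : Thrifty P)
    (hexc : ∀ a : Fin k, ∃ c : Fin k, c ≠ a) {u : ℕ × ℕ → Fin k}
    (hn : ∃ L, L ∈ comps P (cst u) ∧ ∃ y, Prd L y (h, 0)) :
    ∃ L st, Rn P h (cst u) L st ∧ L.length + 1 ≤ 2 * Fintype.card Q := by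
  have hn : ∃ n, ∃ L, L ∈ comps P (cst u) ∧ (∃ y, Prd L y (h, 0)) ∧ L.length = n := by
    obtain ⟨L, h1, h2⟩ := hn
    exact ⟨_, L, h1, h2, rfl⟩
  obtain ⟨L, hL, hroot, hlen⟩ := Nat.find_spec hn
  have hmin : ∀ L', L' ∈ comps P (cst u) → (∃ y, Prd L' y (h, 0)) → L.length ≤ L'.length := by
    intro L' hL' hy
    rw [hlen]
    exact Nat.find_min' hn ⟨L', hL', hy, rfl⟩
  obtain ⟨q, hp, hq⟩ := (path_iff L P.start).mp hL.1
  obtain ⟨st, s0, sT, hs⟩ := exists_sts hp
  have hall : ∀ n, ∀ v : ℕ × ℕ, v.1 + n = h → v.1 + v.2 ≤ h → ∃ y, Prd L y v := by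
    intro n
    induction n with
    | zero =>
      intro v h1 h2
      have : v = (h, 0) := Prod.ext (by simpa using h1) (by simp only; omega)
      rw [this]; exact hroot
    | succ n ih =>
      intro v h1 h2
      by_contra hv
      obtain ⟨c, hc'⟩ := hexc (u v)
      have hC : L ∈ comps P (cst (Function.update u v c)) :=
        chg hL v hv (fun v' hv' => Function.update_of_ne hv' _ _)
      rcases Nat.eq_zero_or_pos v.2 with hz | hz
      · obtain ⟨y, x, d, q', hy, hn⟩ := ih (v.1 + 1, v.2) (by simp only; omega)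
          (by simp only; omega)
        cases x with
        | leaf j => simp [Var.nod] at hn
        | node i j a' b' =>
          simp only [Var.nod, Prod.mk.injEq, Nat.add_right_cancel_iff] at hn
          have hm : (some (Var.node i j a' b', d), q') ∈ L := List.mem_iff_getElem?.mpr ⟨y, hy⟩
          have e1 := (hT _ _ hL i j a' b' d q' hm).1
          have e2 := (hT _ _ hC i j a' b' d q' hm).1
          rw [val_cst] at e1 e2
          have e3 : ((i, j) : ℕ × ℕ) = v := Prod.ext hn.1 hn.2
          rw [e3] at e1 e2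
          rw [Function.update_self] at e2
          exact hc' (e2.symm.trans e1)
      · obtain ⟨y, x, d, q', hy, hn⟩ := ih (v.1 + 1, v.2 - 1) (by simp only; omega)
          (by simp only; omega)
        cases x with
        | leaf j => simp [Var.nod] at hn
        | node i j a' b' =>
          simp only [Var.nod, Prod.mk.injEq, Nat.add_right_cancel_iff] at hn
          have hm : (some (Var.node i j a' b', d), q') ∈ L := List.mem_iff_getElem?.mpr ⟨y, hy⟩
          have e1 := (hT _ _ hL i j a' b' d q' hm).2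
          have e2 := (hT _ _ hC i j a' b' d q' hm).2
          rw [val_cst] at e1 e2
          have e3 : ((i, j + 1) : ℕ × ℕ) = v := Prod.ext hn.1 (by simp only; omega)
          rw [e3] at e1 e2
          rw [Function.update_self] at e2
          exact hc' (e2.symm.trans e1)
  refine ⟨L, st, ⟨hL, s0, by rw [sT]; exact hq, hs, fun v hv => hall (h - v.1) v (by omega) hv⟩, ?_⟩
  -- the length
  obtain ⟨y₀, hy₀⟩ := hroot
  have hcut : ∀ a' b' : ℕ, a' < b' → b' ≤ L.length → (b' ≤ y₀ ∨ y₀ < a') → st a' ≠ st b' := by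
    intro a' b' hab' hbl hy heq
    have p1 := pth_seg hs 0 a' (by omega) (by omega)
    have p2 := pth_seg hs b' L.length hbl le_rfl
    rw [← heq] at p2
    have p3 := p1.append p2
    have hC : seg L 0 a' ++ seg L b' L.length ∈ comps P (cst u) := by
      refine ⟨(path_iff _ _).mpr ⟨st L.length, by rw [← s0]; exact p3, by rw [sT]; exact hq⟩, ?_⟩
      intro x c q' hx
      rcases List.mem_append.mp hx with hx | hx
      · obtain ⟨y, _, _, hy⟩ := mem_seg.mp hx
        exact hL.2 x c q' (List.mem_iff_getElem?.mpr ⟨y, hy⟩)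
      · obtain ⟨y, _, _, hy⟩ := mem_seg.mp hx
        exact hL.2 x c q' (List.mem_iff_getElem?.mpr ⟨y, hy⟩)
    have hR : ∃ y, Prd (seg L 0 a' ++ seg L b' L.length) y (h, 0) := by
      obtain ⟨x, c, q', hx, hn⟩ := hy₀
      have hlt : y₀ < L.length := (List.getElem?_eq_some_iff.mp hx).1
      have hm : (some (x, c), q') ∈ seg L 0 a' ++ seg L b' L.length := by
        rcases hy with hy | hy
        · exact List.mem_append.mpr (Or.inr (mem_seg.mpr ⟨y₀, hy, hlt, hx⟩))
        · exact List.mem_append.mpr (Or.inl (mem_seg.mpr ⟨y₀, Nat.zero_le _, hy, hx⟩))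
      obtain ⟨y, hy⟩ := List.mem_iff_getElem?.mp hm
      exact ⟨y, x, c, q', hy, hn⟩
    have := hmin _ hC hR
    rw [List.length_append, length_seg (by omega), length_seg le_rfl] at this
    omega
  have hlt₀ : y₀ < L.length := by
    obtain ⟨x, c, q', hx, hn⟩ := hy₀
    exact (List.getElem?_eq_some_iff.mp hx).1
  have c1 : y₀ + 1 ≤ Fintype.card Q := by
    have hinj : Function.Injective (fun t : Fin (y₀ + 1) => st t.val) := by
      intro t t' e
      by_contra hne
      have hne' : t.val ≠ t'.val := fun h => hne (Fin.ext h)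
      rcases lt_or_gt_of_ne hne' with h | h
      · exact hcut t.val t'.val h (by omega) (Or.inl (by omega)) e
      · exact hcut t'.val t.val h (by omega) (Or.inl (by omega)) e.symm
    simpa using Fintype.card_le_of_injective _ hinj
  have c2 : L.length - y₀ ≤ Fintype.card Q := by
    have hinj : Function.Injective (fun t : Fin (L.length - y₀) => st (y₀ + 1 + t.val)) := by
      intro t t' e
      by_contra hne
      have hne' : t.val ≠ t'.val := fun h => hne (Fin.ext h)
      rcases lt_or_gt_of_ne hne' with h | h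
      · exact hcut (y₀ + 1 + t.val) (y₀ + 1 + t'.val) (by omega) (by omega)
          (Or.inr (by omega)) e
      · exact hcut (y₀ + 1 + t'.val) (y₀ + 1 + t.val) (by omega) (by omega)
          (Or.inr (by omega)) e.symm
    simpa using Fintype.card_le_of_injective _ hinj
  omega

end Pool.Agent.J4H24.TH
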